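import Mathlib

set_option autoImplicit false

/-!
A seven element counterexample.  Elements: `c0 = 0, c1 = 1, c2 = 2, b = 3, z0 = 4, z1 = 5, z2 = 6`.
-/

namespace Pool.Agent.P.MP_68f206_al

abbrev A := Fin 7

/-- families of finitary operations -/
abbrev Ops (α : Type) := ∀ n : ℕ, Set ((Fin n → α) → α)

def IsClone {α : Type} (D : Ops α) : Prop :=
  (∀ (n : ℕ) (i : Fin n), (fun x : Fin n → α => x i) ∈ D n) ∧
  (∀ (n m : ℕ) (f : (Fin n → α) → α) (g : Fin n → (Fin m → α) → α),
    f ∈ D n → (∀ i, g i ∈ D m) → (fun x : Fin m → α => f (fun i => g i x)) ∈ D m)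

def IsWNU {α : Type} {n : ℕ} (f : (Fin n → α) → α) : Prop :=
  (∀ x : α, f (fun _ : Fin n => x) = x) ∧
    ∀ (x y : α) (i j : Fin n),
      f (Function.update (fun _ : Fin n => x) i y) = f (Function.update (fun _ : Fin n => x) j y)

def HasWNU {α : Type} (D : Ops α) : Prop := ∀ n : ℕ, 3 ≤ n → ∃ f ∈ D n, IsWNU f

/-- Zorn: below a clone with weak near unanimity operations of all arities there is a minimal one -/
theorem exists_minimal {α : Type} [Finite α] (P : Ops α) (hP : IsClone P) (hW : HasWNU P) :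
    ∃ C : Ops α, (∀ n, C n ⊆ P n) ∧ IsClone C ∧ HasWNU C ∧
      ∀ D : Ops α, IsClone D → (∀ n, D n ⊆ C n) → HasWNU D → ∀ n, D n = C n := by
  let S : Set (Ops α)ᵒᵈ := {D | IsClone (OrderDual.ofDual D) ∧ HasWNU (OrderDual.ofDual D)}
  have key : ∀ c ⊆ S, IsChain (· ≤ ·) c → ∀ y ∈ c, ∃ ub ∈ S, ∀ z ∈ c, z ≤ ub := by
    intro c hc hchain y hy
    refine ⟨OrderDual.toDual (fun n => {f | ∀ D ∈ c, f ∈ OrderDual.ofDual D n}), ⟨⟨?_, ?_⟩, ?_⟩, ?_⟩
    · intro n i D hD
      exact (hc hD).1.1 n i
    · intro n m f g hf hg D hD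
      exact (hc hD).1.2 n m f g (hf D hD) (fun i => hg i D hD)
    · intro n hn
      obtain ⟨D0, hD0, hmin⟩ := WellFounded.has_min
        (InvImage.wf (fun D : (Ops α)ᵒᵈ => (OrderDual.ofDual D n).ncard) Nat.lt_wfRel.wf) c ⟨y, hy⟩
      obtain ⟨f, hf, hw⟩ := (hc hD0).2 n hn
      refine ⟨f, ?_, hw⟩
      intro D hD
      rcases hchain.total hD0 hD with h | h
      · have hsub : OrderDual.ofDual D n ⊆ OrderDual.ofDual D0 n := h n
        have hle : (OrderDual.ofDual D0 n).ncard ≤ (OrderDual.ofDual D n).ncard :=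
          not_lt.mp (hmin D hD)
        rw [Set.eq_of_subset_of_ncard_le hsub hle (Set.toFinite _)]
        exact hf
      · exact h n hf
    · intro z hz n f hf
      exact hf z hz
  obtain ⟨m, hm, hmax⟩ := zorn_le_nonempty₀ S key (OrderDual.toDual P) ⟨hP, hW⟩
  refine ⟨OrderDual.ofDual m, fun n => hm n, hmax.1.1, hmax.1.2, ?_⟩
  intro D hD hsub hDW n
  have h1 : m ≤ OrderDual.toDual D := fun n => hsub n
  have h2 := hmax.2 (y := OrderDual.toDual D) ⟨hD, hDW⟩ h1
  exact Set.Subset.antisymm (hsub n) (h2 n)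

/-- the side of an element -/
def side (x : A) : Bool := decide (3 ≤ x.val)

/-- the subalgebras -/
def sub : Fin 6 → A → Bool :=
  ![fun _ => true,
    fun x => x = 0 || x = 1 || x = 4,
    fun x => x = 2 || x = 0 || x = 6,
    fun x => x = 0 || x = 5 || x = 6,
    fun x => x = 1 || x = 2 || x = 3 || x = 5,
    fun x => x = 3 || x = 6 || x = 4]

/-- the bottom elements -/
def bot : Fin 6 → A := ![3, 0, 2, 5, 1, 6]

/-- at most one of three elements lies on side `s` -/
def relSide (s : Bool) (x y z : A) : Prop :=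
  (side x ≠ s ∧ side y ≠ s) ∨ (side x ≠ s ∧ side z ≠ s) ∨ (side y ≠ s ∧ side z ≠ s)

/-- three elements of the subalgebra, not all equal to its bottom element -/
def relSub (k : Fin 6) (x y z : A) : Prop :=
  sub k x = true ∧ sub k y = true ∧ sub k z = true ∧ ¬ (x = bot k ∧ y = bot k ∧ z = bot k)

def Pres (r : A → A → A → Prop) {n : ℕ} (f : (Fin n → A) → A) : Prop :=
  ∀ x y z : Fin n → A, (∀ i, r (x i) (y i) (z i)) → r (f x) (f y) (f z)

/-- the polymorphism clone -/
def Pol : Ops A := fun _ => {f | (∀ s, Pres (relSide s) f) ∧ ∀ k, Pres (relSub k) f}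

theorem pol_clone : IsClone Pol := by
  refine ⟨fun n i => ⟨fun s x y z h => h i, fun k x y z h => h i⟩, ?_⟩
  intro n m f g hf hg
  exact ⟨fun s x y z h => hf.1 s _ _ _ (fun i => (hg i).1 s x y z h),
    fun k x y z h => hf.2 k _ _ _ (fun i => (hg i).2 k x y z h)⟩

def within (h : A → Bool) (B : A → Bool) : Bool :=
  (!h 0 || B 0) && (!h 1 || B 1) && (!h 2 || B 2) && (!h 3 || B 3) && (!h 4 || B 4) &&
    (!h 5 || B 5) && (!h 6 || B 6)

/-- the value of the operation on a tuple with support `h` and majority side `s` -/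
def val (h : A → Bool) (s : Bool) : A :=
  if within h (fun x => x = 0) then 0 else
  if within h (fun x => x = 1) then 1 else
  if within h (fun x => x = 2) then 2 else
  if within h (fun x => x = 3) then 3 else
  if within h (fun x => x = 5) then 5 else
  if within h (fun x => x = 6) then 6 else
  if within h (sub 1) then (if s then 4 else 1) else
  if within h (sub 4) then (if s then 5 else 2) else
  if within h (sub 2) || within h (sub 3) then (if s then 6 else 0) else
  if s then 4 else 0

theorem val_spec0 : ∀ (p0 p1 p2 p3 p4 p5 p6 s : Bool),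
    (∃ x, ![p0, p1, p2, p3, p4, p5, p6] x = true ∧ side x = s) →
      side (val ![p0, p1, p2, p3, p4, p5, p6] s) = s ∧
      ∀ k, (∀ x, ![p0, p1, p2, p3, p4, p5, p6] x = true → sub k x = true) →
        sub k (val ![p0, p1, p2, p3, p4, p5, p6] s) = true ∧
        (val ![p0, p1, p2, p3, p4, p5, p6] s = bot k →
          ∀ x, ![p0, p1, p2, p3, p4, p5, p6] x = true → x = bot k) := by
  decide +kernel

theorem val_spec (h : A → Bool) (s : Bool) (hx : ∃ x, h x = true ∧ side x = s) :
    side (val h s) = s ∧ ∀ k, (∀ x, h x = true → sub k x = true) →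
      sub k (val h s) = true ∧ (val h s = bot k → ∀ x, h x = true → x = bot k) := by
  have e : h = ![h 0, h 1, h 2, h 3, h 4, h 5, h 6] := by
    funext x; fin_cases x <;> rfl
  have := val_spec0 (h 0) (h 1) (h 2) (h 3) (h 4) (h 5) (h 6) s
  rw [← e] at this
  exact this hx

theorem val_single : ∀ x : A, val (fun y => decide (y = x)) (side x) = x := by
  decide +kernel

def maj (p q r : Bool) : Bool := (p && q) || (p && r) || (q && r)

def supp {n : ℕ} (x : Fin n → A) : A → Bool := fun a => decide (∃ i, x i = a)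

def msd {n : ℕ} (x : Fin (n + 3) → A) : Bool := maj (side (x 0)) (side (x 1)) (side (x 2))

def wnu {n : ℕ} (x : Fin (n + 3) → A) : A := val (supp x) (msd x)

theorem exists_side {n : ℕ} (x : Fin (n + 3) → A) : ∃ a, supp x a = true ∧ side a = msd x := by
  have : ∀ p q r : Bool, p = maj p q r ∨ q = maj p q r := by decide
  rcases this (side (x 0)) (side (x 1)) (side (x 2)) with h | h
  · exact ⟨x 0, by simp [supp], h⟩
  · exact ⟨x 1, by simp [supp], h⟩

def amo (s p q r : Bool) : Bool :=
  (p != s && q != s) || (p != s && r != s) || (q != s && r != s)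

theorem relSide_iff (s : Bool) (x y z : A) :
    relSide s x y z ↔ amo s (side x) (side y) (side z) = true := by
  simp [relSide, amo, or_assoc]

theorem wnu_mem (n : ℕ) : (wnu : (Fin (n + 3) → A) → A) ∈ Pol (n + 3) := by
  constructor
  · intro s x y z h
    have hx := (val_spec _ _ (exists_side x)).1
    have hy := (val_spec _ _ (exists_side y)).1
    have hz := (val_spec _ _ (exists_side z)).1
    have h0 := h 0
    have h1 := h 1
    have h2 := h 2
    have mm : ∀ a0 a1 a2 b0 b1 b2 c0 c1 c2 s : Bool, amo s a0 b0 c0 = true → amo s a1 b1 c1 = true →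
        amo s a2 b2 c2 = true → amo s (maj a0 a1 a2) (maj b0 b1 b2) (maj c0 c1 c2) = true := by
      decide +kernel
    rw [relSide_iff] at h0 h1 h2 ⊢
    unfold wnu
    rw [hx, hy, hz]
    exact mm _ _ _ _ _ _ _ _ _ _ h0 h1 h2
  · intro k x y z h
    have hs : ∀ (u : Fin (n + 3) → A), (∀ i, sub k (u i) = true) →
        sub k (wnu u) = true ∧ (wnu u = bot k → u 0 = bot k) := by
      intro u hu
      have := (val_spec _ _ (exists_side u)).2 k (by
        intro a ha
        obtain ⟨i, rfl⟩ : ∃ i, u i = a := by simpa [supp] using ha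
        exact hu i)
      exact ⟨this.1, fun e => this.2 e _ (by simp [supp])⟩
    have hx := hs x (fun i => (h i).1)
    have hy := hs y (fun i => (h i).2.1)
    have hz := hs z (fun i => (h i).2.2.1)
    exact ⟨hx.1, hy.1, hz.1, fun e => (h 0).2.2.2 ⟨hx.2 e.1, hy.2 e.2.1, hz.2 e.2.2⟩⟩

theorem msd_update {n : ℕ} (x y : A) (i : Fin (n + 3)) :
    msd (Function.update (fun _ : Fin (n + 3) => x) i y) = side x := by
  have h01 : (0 : Fin (n + 3)) ≠ 1 := by simp
  have h02 : (0 : Fin (n + 3)) ≠ 2 := by
    intro e; have := congrArg Fin.val e; simp at this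
    rw [Nat.mod_eq_of_lt (by omega)] at this; omega
  have h12 : (1 : Fin (n + 3)) ≠ 2 := by
    intro e; have := congrArg Fin.val e; simp at this
    rw [Nat.mod_eq_of_lt (by omega)] at this; omega
  have m1 : ∀ p q : Bool, maj q p p = p := by decide
  have m2 : ∀ p q : Bool, maj p q p = p := by decide
  have m3 : ∀ p q : Bool, maj p p q = p := by decide
  unfold msd
  by_cases e0 : i = 0
  · subst e0
    rw [Function.update_of_ne h01.symm, Function.update_of_ne h02.symm, m1]
  · by_cases e1 : i = 1
    · subst e1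
      rw [Function.update_of_ne h01, Function.update_of_ne h12.symm, m2]
    · rw [Function.update_of_ne (Ne.symm e0), Function.update_of_ne (Ne.symm e1), m3]

theorem supp_update {n : ℕ} (x y : A) (i : Fin (n + 3)) :
    supp (Function.update (fun _ : Fin (n + 3) => x) i y) = fun a => decide (a = x ∨ a = y) := by
  funext a
  unfold supp
  apply decide_eq_decide.mpr
  constructor
  · rintro ⟨j, rfl⟩
    by_cases e : j = i
    · subst e; simp
    · simp [Function.update_of_ne e]
  · rintro (rfl | rfl)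
    · obtain ⟨j, hj⟩ := exists_ne i
      exact ⟨j, Function.update_of_ne hj _ _⟩
    · exact ⟨i, by simp⟩

theorem wnu_isWNU (n : ℕ) : IsWNU (wnu : (Fin (n + 3) → A) → A) := by
  constructor
  · intro x
    have h1 : supp (fun _ : Fin (n + 3) => x) = fun y => decide (y = x) := by
      funext a; unfold supp; apply decide_eq_decide.mpr
      exact ⟨fun ⟨_, h⟩ => h.symm, fun h => ⟨0, h.symm⟩⟩
    have h2 : msd (fun _ : Fin (n + 3) => x) = side x := by
      unfold msd; cases side x <;> rfl
    unfold wnu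
    rw [h1, h2, val_single]
  · intro x y i j
    unfold wnu
    rw [msd_update, msd_update, supp_update, supp_update]

theorem pol_hasWNU : HasWNU Pol := by
  intro n hn
  obtain ⟨m, rfl⟩ : ∃ m, n = m + 3 := ⟨n - 3, by omega⟩
  exact ⟨wnu, wnu_mem m, wnu_isWNU m⟩

/-- a ternary weak near unanimity operation preserving `r` -/
theorem forced {w : (Fin 3 → A) → A} (hw : IsWNU w) (r : A → A → A → Prop) (hr : Pres r w)
    (p q : A) (h1 : r p p q) (h2 : r p q p) (h3 : r q p p) :
    r (w ![p, p, q]) (w ![p, p, q]) (w ![p, p, q]) := by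
  have e2 : (![p, p, q] : Fin 3 → A) = Function.update (fun _ => p) 2 q := by
    funext i; fin_cases i <;> rfl
  have e1 : (![p, q, p] : Fin 3 → A) = Function.update (fun _ => p) 1 q := by
    funext i; fin_cases i <;> rfl
  have e0 : (![q, p, p] : Fin 3 → A) = Function.update (fun _ => p) 0 q := by
    funext i; fin_cases i <;> rfl
  have a1 : w ![p, q, p] = w ![p, p, q] := by rw [e1, e2]; exact hw.2 p q 1 2
  have a0 : w ![q, p, p] = w ![p, p, q] := by rw [e0, e2]; exact hw.2 p q 0 2
  have := hr ![q, p, p] ![p, q, p] ![p, p, q] (by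
    intro i; fin_cases i
    · exact h3
    · exact h2
    · exact h1)
  rwa [a0, a1] at this

instance (s : Bool) (x y z : A) : Decidable (relSide s x y z) := by unfold relSide; infer_instance
instance (k : Fin 6) (x y z : A) : Decidable (relSub k x y z) := by unfold relSub; infer_instance

theorem values {w : (Fin 3 → A) → A} (hw : IsWNU w) (hp : w ∈ Pol 3) :
    (w ![3, 3, 0] = 4 ∨ w ![3, 3, 0] = 5 ∨ w ![3, 3, 0] = 6) ∧ w ![0, 0, 4] = 1 ∧
      w ![1, 1, 3] = 2 ∧ w ![3, 3, 1] = 5 ∧ w ![5, 5, 0] = 6 ∧ w ![3, 3, 6] = 4 ∧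
      w ![2, 2, 6] = 0 := by
  have S := fun s p q => forced hw (relSide s) (hp.1 s) p q
  have B := fun k p q => forced hw (relSub k) (hp.2 k) p q
  refine ⟨?_, ?_, ?_, ?_, ?_, ?_, ?_⟩
  · have h1 := S false 3 0 (by decide) (by decide) (by decide)
    have h2 := B 0 3 0 (by decide) (by decide) (by decide)
    revert h1 h2; generalize w ![3, 3, 0] = v; revert v; decide
  · have h1 := S true 0 4 (by decide) (by decide) (by decide)
    have h2 := B 1 0 4 (by decide) (by decide) (by decide)
    revert h1 h2; generalize w ![0, 0, 4] = v; revert v; decide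
  · have h1 := S true 1 3 (by decide) (by decide) (by decide)
    have h2 := B 4 1 3 (by decide) (by decide) (by decide)
    revert h1 h2; generalize w ![1, 1, 3] = v; revert v; decide
  · have h1 := S false 3 1 (by decide) (by decide) (by decide)
    have h2 := B 4 3 1 (by decide) (by decide) (by decide)
    have h3 := B 0 3 1 (by decide) (by decide) (by decide)
    revert h1 h2 h3; generalize w ![3, 3, 1] = v; revert v; decide
  · have h1 := S false 5 0 (by decide) (by decide) (by decide)
    have h2 := B 3 5 0 (by decide) (by decide) (by decide)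
    revert h1 h2; generalize w ![5, 5, 0] = v; revert v; decide
  · have h2 := B 5 3 6 (by decide) (by decide) (by decide)
    have h3 := B 0 3 6 (by decide) (by decide) (by decide)
    revert h2 h3; generalize w ![3, 3, 6] = v; revert v; decide
  · have h1 := S true 2 6 (by decide) (by decide) (by decide)
    have h2 := B 2 2 6 (by decide) (by decide) (by decide)
    revert h1 h2; generalize w ![2, 2, 6] = v; revert v; decide

/-- every set containing `c0, b` and closed under such an operation contains `c2` and `z2` -/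
theorem generates {w : (Fin 3 → A) → A} (hw : IsWNU w) (hp : w ∈ Pol 3) (T : Set A)
    (ha : (0 : A) ∈ T) (hb : (3 : A) ∈ T)
    (hT : ∀ y : Fin 3 → A, (∀ j, y j ∈ T) → w y ∈ T) : (2 : A) ∈ T ∧ (6 : A) ∈ T := by
  obtain ⟨v1, v2, v3, v4, v5, v6, -⟩ := values hw hp
  have cl : ∀ p q : A, p ∈ T → q ∈ T → w ![p, p, q] ∈ T := by
    intro p q h1 h2
    apply hT
    intro j; fin_cases j
    · exact h1
    · exact h1
    · exact h2
  have s56 : (5 : A) ∈ T → (6 : A) ∈ T := fun h => v5 ▸ cl 5 0 h ha
  have s64 : (6 : A) ∈ T → (4 : A) ∈ T := fun h => v6 ▸ cl 3 6 hb h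
  have h4 : (4 : A) ∈ T := by
    have h := cl 3 0 hb ha
    rcases v1 with e | e | e <;> rw [e] at h
    · exact h
    · exact s64 (s56 h)
    · exact s64 h
  have h1 : (1 : A) ∈ T := v2 ▸ cl 0 4 ha h4
  exact ⟨v3 ▸ cl 1 3 h1 hb, s56 (v4 ▸ cl 3 1 hb h1)⟩

end Pool.Agent.P.MP_68f206_al
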